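import Pool.Agent.LibSP74.Main
import Pool.Agent.H78Sprawl.Square

set_option autoImplicit false

open MeasureTheory Set

namespace Pool.Agent.Results.MP_c499fd_gt.CubeMax

open Pool.Agent.LibSP74

/-- In every dimension `d ≥ 2` the cube has the largest sprawl: for `E` the sprawl functional of the
problem, `E(cube)` is the greatest element of the set of the sprawls of all centrally symmetric convex
bodies. -/
theorem result :
    ∀ d : ℕ, 2 ≤ d →
    ∀ E : Set (EuclideanSpace ℝ (Fin d)) → ℝ,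
      E = (fun K : Set (EuclideanSpace ℝ (Fin d)) =>
        (∫ x in K, ∫ y in K,
            gauge K ((gauge K x)⁻¹ • x - (gauge K y)⁻¹ • y)) /
          ((MeasureTheory.volume K).toReal ^ 2)) →
      IsGreatest {e : ℝ | ∃ K : Set (EuclideanSpace ℝ (Fin d)),
          Convex ℝ K ∧ IsCompact K ∧ (interior K).Nonempty ∧
          (∀ x ∈ K, -x ∈ K) ∧ e = E K}
        (E {x : EuclideanSpace ℝ (Fin d) |
              ∀ i : Fin d, |EuclideanSpace.proj (𝕜 := ℝ) i x| ≤ 1}) := by
  intro d hd2 E hE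
  have hC : IsN (mx : EuclideanSpace ℝ (Fin d) → ℝ) := isN_mx d
  have hsp : ∀ K : Set (EuclideanSpace ℝ (Fin d)), Convex ℝ K → IsCompact K →
      (interior K).Nonempty → (∀ x ∈ K, -x ∈ K) → E K = sprawl (gauge K) := by
    intro K hc hK hi hs
    obtain ⟨-, h2⟩ := body_norm hc hK hi hs
    rw [hE]
    unfold sprawl vol
    simp only
    rw [← h2]
  -- the cube is a body
  have hcube := cube_eq d
  have hconv : Convex ℝ {x : EuclideanSpace ℝ (Fin d) | mx x ≤ 1} := by
    intro z hz w hw a b ha hb hab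
    have h1 := hC.add_le (a • z) (b • w)
    rw [hC.smul_nonneg ha, hC.smul_nonneg hb] at h1
    have hz' : mx z ≤ 1 := hz
    have hw' : mx w ≤ 1 := hw
    change mx _ ≤ 1
    nlinarith
  have hcomp : IsCompact {x : EuclideanSpace ℝ (Fin d) | mx x ≤ 1} := hC.isCompact_ball 1
  have hint : (interior {x : EuclideanSpace ℝ (Fin d) | mx x ≤ 1}).Nonempty := by
    refine ⟨0, mem_interior.2 ⟨{z | mx z < 1}, fun z hz => (le_of_lt hz : mx z ≤ 1),
      isOpen_lt hC.cont continuous_const, ?_⟩⟩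
    change mx (0 : EuclideanSpace ℝ (Fin d)) < 1
    rw [hC.zero]; norm_num
  have hsymm : ∀ x ∈ {x : EuclideanSpace ℝ (Fin d) | mx x ≤ 1},
      -x ∈ {x : EuclideanSpace ℝ (Fin d) | mx x ≤ 1} := by
    intro x hx
    change mx (-x) ≤ 1
    rw [hC.neg]; exact hx
  rw [hcube]
  refine ⟨⟨_, hconv, hcomp, hint, hsymm, rfl⟩, ?_⟩
  rintro e ⟨K, hc, hK, hi, hs, rfl⟩
  rcases hd2.lt_or_eq with hd3 | hd3
  · rw [hsp K hc hK hi hs, hsp _ hconv hcomp hint hsymm, gauge_ball hC]
    exact sprawl_le (body_norm hc hK hi hs).1 hd3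
  · subst hd3
    obtain ⟨-, h2, h3⟩ := Pool.Agent.H78Sprawl.planar
    have hE' : E = Pool.Agent.H78Sprawl.EK := by
      rw [hE]; rfl
    rw [← hcube, hE', h2]
    have : Pool.Agent.H78Sprawl.EK K ∈ Set.Icc (4 / Real.pi) (4 / 3) := by
      rw [← h3]
      exact ⟨K, hc, hK, hi, hs, rfl⟩
    exact this.2

end Pool.Agent.Results.MP_c499fd_gt.CubeMax
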