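import Pool.Agent.H78Sprawl.Square

set_option autoImplicit false

namespace Pool.Agent.Results.MP_c499fd_gt.PlanarSprawl

/-- The sprawl conjecture holds in the plane: the sprawl of the disc is `4/π`, that of the square is
`4/3`, and the values of the sprawl over all centrally symmetric planar convex bodies are exactly
the numbers of the interval between them. -/
theorem result :
    ∀ E : Set (EuclideanSpace ℝ (Fin 2)) → ℝ,
      E = (fun K : Set (EuclideanSpace ℝ (Fin 2)) =>
        (∫ x in K, ∫ y in K,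
            gauge K ((gauge K x)⁻¹ • x - (gauge K y)⁻¹ • y)) /
          ((MeasureTheory.volume K).toReal ^ 2)) →
      E (Metric.closedBall (0 : EuclideanSpace ℝ (Fin 2)) 1) = 4 / Real.pi ∧
      E {x : EuclideanSpace ℝ (Fin 2) |
          ∀ i : Fin 2, |EuclideanSpace.proj (𝕜 := ℝ) i x| ≤ 1} = 4 / 3 ∧
      {e : ℝ | ∃ K : Set (EuclideanSpace ℝ (Fin 2)),
          Convex ℝ K ∧ IsCompact K ∧ (interior K).Nonempty ∧
          (∀ x ∈ K, -x ∈ K) ∧ e = E K} =
        Set.Icc (E (Metric.closedBall (0 : EuclideanSpace ℝ (Fin 2)) 1))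
          (E {x : EuclideanSpace ℝ (Fin 2) |
              ∀ i : Fin 2, |EuclideanSpace.proj (𝕜 := ℝ) i x| ≤ 1}) := by
  intro E hE
  have hE' : E = Pool.Agent.H78Sprawl.EK := by
    rw [hE]; rfl
  obtain ⟨h1, h2, h3⟩ := Pool.Agent.H78Sprawl.planar
  rw [hE', h1, h2]
  exact ⟨rfl, rfl, h3⟩

end Pool.Agent.Results.MP_c499fd_gt.PlanarSprawl
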