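import Pool.Agent.LibSP52.F1
import Pool.Agent.LibSP52.F2

set_option autoImplicit false

namespace Pool.Agent.Results.MP_c499fd_gt.SpatialSprawl

open Pool.Agent.LibSP74 Pool.Agent.LibSP52

/-- The sprawl conjecture holds in dimension 3: the values of the sprawl over all centrally symmetric
convex bodies of `ℝ³` are exactly the numbers of the interval from the sprawl of the ball, which is
`4/3`, to the sprawl of the cube. -/
theorem result :
    ∀ E : Set (EuclideanSpace ℝ (Fin 3)) → ℝ,
      E = (fun K : Set (EuclideanSpace ℝ (Fin 3)) =>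
        (∫ x in K, ∫ y in K,
            gauge K ((gauge K x)⁻¹ • x - (gauge K y)⁻¹ • y)) /
          ((MeasureTheory.volume K).toReal ^ 2)) →
      {e : ℝ | ∃ K : Set (EuclideanSpace ℝ (Fin 3)),
          Convex ℝ K ∧ IsCompact K ∧ (interior K).Nonempty ∧
          (∀ x ∈ K, -x ∈ K) ∧ e = E K} =
        Set.Icc (E (Metric.closedBall (0 : EuclideanSpace ℝ (Fin 3)) 1))
          (E {x : EuclideanSpace ℝ (Fin 3) |
              ∀ i : Fin 3, |EuclideanSpace.proj (𝕜 := ℝ) i x| ≤ 1}) ∧
      E (Metric.closedBall (0 : EuclideanSpace ℝ (Fin 3)) 1) = 4 / 3 := by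
  intro E hE
  obtain ⟨h1, h2⟩ := full_of_lower le_rfl (fun N hN => by rw [ball3]; exact lower3 hN) E hE
  exact ⟨h1, by rw [h2, ball3]⟩

end Pool.Agent.Results.MP_c499fd_gt.SpatialSprawl
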